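import Mathlib

set_option autoImplicit false

/-!
Dissociated subsets of finite sets of integers via the 2-adic tree.
-/

namespace H25.E963

open Finset

/-- no nontrivial relation with coefficients in {-1,0,1} -/
def RF (B : Finset ℤ) : Prop :=
  ∀ e : ℤ → ℤ, (∀ x ∈ B, |e x| ≤ 1) → ∑ x ∈ B, e x * x = 0 → ∀ x ∈ B, e x = 0

lemma rf_step {B : Finset ℤ} {a : ℕ} {x₀ x₁ : ℤ} (hx₀ : Odd x₀)
    (hB : ∀ x ∈ B, (2 : ℤ) ^ (a + 1) ∣ x - x₀) (h1 : (2 : ℤ) ^ a ∣ x₁ - x₀)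
    (h2 : ¬ (2 : ℤ) ^ (a + 1) ∣ x₁ - x₀) (hRF : RF B) (hc : (#B : ℤ) + 1 < 2 ^ a) (hx₁ : x₁ ∉ B) :
    RF (insert x₁ B) := by
  intro e he hs
  rw [sum_insert hx₁] at hs
  have hpow : (2 : ℤ) ^ a ∣ 2 ^ (a + 1) := pow_dvd_pow 2 (Nat.le_succ a)
  set σ : ℤ := e x₁ + ∑ x ∈ B, e x with hσ
  have hsum : e x₁ * (x₁ - x₀) + ∑ x ∈ B, e x * (x - x₀) = - (σ * x₀) := by
    have : ∑ x ∈ B, e x * (x - x₀) = ∑ x ∈ B, e x * x - (∑ x ∈ B, e x) * x₀ := by
      rw [sum_mul, ← sum_sub_distrib]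
      exact sum_congr rfl (fun x _ => by ring)
    rw [this, hσ]
    linear_combination hs
  have hdB : (2 : ℤ) ^ (a + 1) ∣ ∑ x ∈ B, e x * (x - x₀) :=
    dvd_sum (fun x hx => (hB x hx).mul_left _)
  have hd : (2 : ℤ) ^ a ∣ σ * x₀ := by
    have h3 : (2 : ℤ) ^ a ∣ - (σ * x₀) := by
      rw [← hsum]
      exact dvd_add (h1.mul_left _) (hpow.trans hdB)
    exact (dvd_neg.1 h3)
  have hcop : IsCoprime ((2 : ℤ) ^ a) x₀ := by
    apply IsCoprime.pow_left
    obtain ⟨k, hk⟩ := hx₀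
    exact ⟨-k, 1, by rw [hk]; ring⟩
  have hσd : (2 : ℤ) ^ a ∣ σ := hcop.dvd_of_dvd_mul_right hd
  have hσ0 : σ = 0 := by
    apply Int.eq_zero_of_abs_lt_dvd hσd
    have h3 : |∑ x ∈ B, e x| ≤ #B := by
      refine (abs_sum_le_sum_abs _ _).trans ?_
      calc ∑ x ∈ B, |e x| ≤ ∑ x ∈ B, (1 : ℤ) :=
            sum_le_sum (fun x hx => he x (mem_insert_of_mem hx))
        _ = #B := by simp
    have h4 := he x₁ (mem_insert_self _ _)
    calc |σ| ≤ |e x₁| + |∑ x ∈ B, e x| := abs_add_le _ _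
      _ < 2 ^ a := by linarith
  have he1 : e x₁ = 0 := by
    by_contra hne
    have h5 : (2 : ℤ) ^ (a + 1) ∣ e x₁ * (x₁ - x₀) := by
      have h6 : e x₁ * (x₁ - x₀) = - ∑ x ∈ B, e x * (x - x₀) := by
        rw [hσ0, zero_mul, neg_zero] at hsum
        linarith
      rw [h6]
      exact hdB.neg_right
    have h7 : |e x₁| = 1 := le_antisymm (he x₁ (mem_insert_self _ _)) (Int.one_le_abs hne)
    apply h2
    rcases (abs_eq (by norm_num : (0 : ℤ) ≤ 1)).1 h7 with h8 | h8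
    · rw [h8, one_mul] at h5; exact h5
    · rw [h8, neg_one_mul] at h5; exact (dvd_neg.1 h5)
  rw [he1, zero_mul, zero_add] at hs
  have hrest := hRF e (fun x hx => he x (mem_insert_of_mem hx)) hs
  intro x hx
  rcases mem_insert.1 hx with h9 | h9
  · rw [h9]; exact he1
  · exact hrest x h9

/-- the level at which a set with two elements splits -/
lemma exists_level {Q : Finset ℤ} {a : ℕ} (h2 : 2 ≤ #Q)
    (hQ : ∀ x ∈ Q, ∀ y ∈ Q, (2 : ℤ) ^ a ∣ x - y) :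
    ∃ b, a ≤ b ∧ (∀ x ∈ Q, ∀ y ∈ Q, (2 : ℤ) ^ b ∣ x - y) ∧
      ∃ x ∈ Q, ∃ y ∈ Q, ¬ (2 : ℤ) ^ (b + 1) ∣ x - y := by
  classical
  obtain ⟨x, hx, y, hy, hxy⟩ := one_lt_card.1 (show 1 < #Q by omega)
  have hex : ∃ c, ¬ ∀ x ∈ Q, ∀ y ∈ Q, (2 : ℤ) ^ c ∣ x - y := by
    refine ⟨(x - y).natAbs, fun h => ?_⟩
    have h3 := h x hx y hy
    have h4 : (x - y) ≠ 0 := sub_ne_zero.2 hxy
    have h5 := Int.le_of_dvd (abs_pos.2 h4) ((dvd_abs _ _).2 h3)
    have h6 : (x - y).natAbs < 2 ^ (x - y).natAbs := Nat.lt_two_pow_self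
    have h7 : ((x - y).natAbs : ℤ) = |x - y| := Int.natCast_natAbs _
    have h8 : ((x - y).natAbs : ℤ) < 2 ^ (x - y).natAbs := by exact_mod_cast h6
    linarith
  set c := Nat.find hex with hc
  have hcs := Nat.find_spec hex
  have hca : a < c := by
    by_contra hle
    push Not at hle
    apply hcs
    intro x hx y hy
    exact (pow_dvd_pow 2 hle).trans (hQ x hx y hy)
  obtain ⟨b, hb⟩ : ∃ b, c = b + 1 := ⟨c - 1, by omega⟩
  refine ⟨b, by omega, ?_, ?_⟩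
  · have := Nat.find_min hex (m := b) (by omega)
    push Not at this
    exact this
  · rw [← hc, hb] at hcs
    push Not at hcs
    exact hcs

lemma dvd_of_not {a : ℕ} {u v : ℤ} (hu : (2 : ℤ) ^ a ∣ u) (hv : (2 : ℤ) ^ a ∣ v)
    (hu' : ¬ (2 : ℤ) ^ (a + 1) ∣ u) (hv' : ¬ (2 : ℤ) ^ (a + 1) ∣ v) : (2 : ℤ) ^ (a + 1) ∣ u - v := by
  obtain ⟨r, hr⟩ := hu
  obtain ⟨s, hs⟩ := hv
  have hro : Odd r := by
    rw [← Int.not_even_iff_odd]
    rintro ⟨k, hk⟩
    exact hu' ⟨k, by rw [hr, hk]; ring⟩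
  have hso : Odd s := by
    rw [← Int.not_even_iff_odd]
    rintro ⟨k, hk⟩
    exact hv' ⟨k, by rw [hs, hk]; ring⟩
  obtain ⟨k, hk⟩ := hro.sub_odd hso
  exact ⟨k, by rw [hr, hs, ← mul_sub, hk]; ring⟩

/-- the caterpillar lemma -/
lemma caterpillar : ∀ (h a : ℕ) (Q : Finset ℤ), (∀ x ∈ Q, Odd x) →
    (∀ x ∈ Q, ∀ y ∈ Q, (2 : ℤ) ^ a ∣ x - y) → 2 ^ h < 2 * #Q → (h : ℤ) + 1 < 2 ^ a →
    ∃ B ⊆ Q, #B = h + 1 ∧ RF B := by
  classical
  intro h
  induction h with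
  | zero =>
    intro a Q hodd _ hc _
    have hne : Q.Nonempty := by
      rw [← card_pos]; omega
    obtain ⟨x, hx⟩ := hne
    refine ⟨{x}, singleton_subset_iff.2 hx, by simp, ?_⟩
    intro e _ hs y hy
    rw [mem_singleton] at hy
    rw [sum_singleton] at hs
    subst hy
    rcases mul_eq_zero.1 hs with h1 | h1
    · exact h1
    · exfalso
      have := hodd y hx
      rw [h1] at this
      simp at this
  | succ h ih =>
    intro a Q hodd hQ hc ha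
    have hcard : 2 ^ h < #Q := by
      rw [pow_succ] at hc; omega
    have hpos : 0 < 2 ^ h := by positivity
    obtain ⟨b, hab, hQb, y, hy, z, hz, hyz⟩ := exists_level (Q := Q) (a := a) (by omega) hQ
    set Q₁ := Q.filter (fun x => (2 : ℤ) ^ (b + 1) ∣ x - y) with hQ₁
    set Q₂ := Q.filter (fun x => ¬ (2 : ℤ) ^ (b + 1) ∣ x - y) with hQ₂
    have hsplit : #Q₁ + #Q₂ = #Q := card_filter_add_card_filter_not _
    have hy1 : y ∈ Q₁ := by rw [hQ₁, mem_filter]; exact ⟨hy, by simp⟩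
    have hz2 : z ∈ Q₂ := by
      rw [hQ₂, mem_filter]
      refine ⟨hz, fun hd => hyz ?_⟩
      have := hd.neg_right
      rwa [neg_sub] at this
    have hab' : (2 : ℤ) ^ a ≤ 2 ^ b := pow_le_pow_right₀ (by norm_num) hab
    have hb1 : (2 : ℤ) ^ b ≤ 2 ^ (b + 1) := pow_le_pow_right₀ (by norm_num) (Nat.le_succ b)
    have ha' : ((h : ℤ) + 1) + 1 < 2 ^ b := by push_cast at ha; linarith
    have hQ1c : ∀ x ∈ Q₁, ∀ y' ∈ Q₁, (2 : ℤ) ^ (b + 1) ∣ x - y' := by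
      intro x hx y' hy'
      have h1 := (mem_filter.1 hx).2
      have h2 := (mem_filter.1 hy').2
      have : x - y' = (x - y) - (y' - y) := by ring
      rw [this]
      exact dvd_sub h1 h2
    have hQ2c : ∀ x ∈ Q₂, ∀ y' ∈ Q₂, (2 : ℤ) ^ (b + 1) ∣ x - y' := by
      intro x hx y' hy'
      obtain ⟨hxQ, h1⟩ := mem_filter.1 hx
      obtain ⟨hyQ, h2⟩ := mem_filter.1 hy'
      have : x - y' = (x - y) - (y' - y) := by ring
      rw [this]
      exact dvd_of_not (hQb x hxQ y hy) (hQb y' hyQ y hy) h1 h2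
    rcases (by omega : 2 ^ h < 2 * #Q₁ ∨ 2 ^ h < 2 * #Q₂) with hbig | hbig
    · obtain ⟨B, hBQ, hBc, hBR⟩ := ih (b + 1) Q₁ (fun x hx => hodd x (mem_filter.1 hx).1) hQ1c hbig
        (by linarith)
      have hBne : B.Nonempty := by rw [← card_pos]; omega
      obtain ⟨x₀, hx₀⟩ := hBne
      have hzB : z ∉ B := fun hzB => (mem_filter.1 hz2).2 (mem_filter.1 (hBQ hzB)).2
      have hx₀Q := (mem_filter.1 (hBQ hx₀)).1
      refine ⟨insert z B, ?_, ?_, ?_⟩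
      · intro w hw
        rcases mem_insert.1 hw with h1 | h1
        · rw [h1]; exact hz
        · exact (mem_filter.1 (hBQ h1)).1
      · rw [card_insert_of_notMem hzB, hBc]
      · refine rf_step (a := b) (x₀ := x₀) (hodd x₀ hx₀Q) ?_ (hQb z hz x₀ hx₀Q) ?_ hBR ?_ hzB
        · intro x hx
          exact hQ1c x (hBQ hx) x₀ (hBQ hx₀)
        · intro hd
          apply (mem_filter.1 hz2).2
          have h3 := (mem_filter.1 (hBQ hx₀)).2
          have : z - y = (z - x₀) + (x₀ - y) := by ring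
          rw [this]
          exact dvd_add hd h3
        · rw [hBc]; push_cast; linarith
    · obtain ⟨B, hBQ, hBc, hBR⟩ := ih (b + 1) Q₂ (fun x hx => hodd x (mem_filter.1 hx).1) hQ2c hbig
        (by linarith)
      have hBne : B.Nonempty := by rw [← card_pos]; omega
      obtain ⟨x₀, hx₀⟩ := hBne
      have hyB : y ∉ B := fun hyB => (mem_filter.1 (hBQ hyB)).2 (by simp)
      have hx₀Q := (mem_filter.1 (hBQ hx₀)).1
      refine ⟨insert y B, ?_, ?_, ?_⟩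
      · intro w hw
        rcases mem_insert.1 hw with h1 | h1
        · rw [h1]; exact hy
        · exact (mem_filter.1 (hBQ h1)).1
      · rw [card_insert_of_notMem hyB, hBc]
      · refine rf_step (a := b) (x₀ := x₀) (hodd x₀ hx₀Q) ?_ (hQb y hy x₀ hx₀Q) ?_ hBR ?_ hyB
        · intro x hx
          exact hQ2c x (hBQ hx) x₀ (hBQ hx₀)
        · intro hd
          apply (mem_filter.1 (hBQ hx₀)).2
          have := hd.neg_right
          rwa [neg_sub] at this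
        · rw [hBc]; push_cast; linarith

end H25.E963
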