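import Mathlib
import Pool.Agent.Helper25.E963Tree

set_option autoImplicit false

namespace H25.E963

open Finset

/-- no nontrivial relation with coefficients in {-1,0,1}, for sets of naturals -/
def RFn (B : Finset ℕ) : Prop :=
  ∀ e : ℕ → ℤ, (∀ x ∈ B, |e x| ≤ 1) → ∑ x ∈ B, e x * (x : ℤ) = 0 → ∀ x ∈ B, e x = 0

/-- passing to absolute values -/
lemma rfn_of_rf {B : Finset ℤ} (hB : RF B) (hinj : Set.InjOn Int.natAbs (B : Set ℤ)) :
    RFn (B.image Int.natAbs) := by
  intro e he hs
  rw [sum_image hinj] at hs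
  have key := hB (fun z => e z.natAbs * z.sign) (by
    intro z hz
    have h1 := he z.natAbs (mem_image_of_mem _ hz)
    rw [abs_mul]
    rcases eq_or_ne z 0 with h0 | h0
    · subst h0; simp
    · have : |z.sign| = 1 := by
        rcases lt_or_gt_of_ne h0 with h | h
        · rw [Int.sign_eq_neg_one_of_neg h]; simp
        · rw [Int.sign_eq_one_of_pos h]; simp
      rw [this, mul_one]; exact h1) (by
    rw [← hs]
    apply sum_congr rfl
    intro z _
    rw [mul_assoc, Int.sign_mul_self_eq_abs z, Int.natCast_natAbs])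
  intro x hx
  obtain ⟨z, hz, rfl⟩ := mem_image.1 hx
  rcases mul_eq_zero.1 (key z hz) with h | h
  · exact h
  · have h0 : z = 0 := Int.sign_eq_zero_iff_zero.1 h
    -- z = 0 contradicts RF
    exfalso
    have h2 := hB (fun w => if w = 0 then 1 else 0) (by
      intro w _; split_ifs <;> simp) (by
      apply sum_eq_zero
      intro w _
      split_ifs with hw
      · rw [hw]; simp
      · simp) z hz
    simp [h0] at h2

/-- the class map -/
def cls (M x : ℕ) : ℕ := min (x % M) (M - x % M)

/-- sign normalisation -/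
def sg (M x : ℕ) : ℤ := if x % M ≤ M - x % M then 1 else -1

lemma sg_spec {M x : ℕ} (hM : 0 < M) : (M : ℤ) ∣ sg M x * x - cls M x := by
  have h1 : x % M < M := Nat.mod_lt _ hM
  have h2 : ((x % M : ℕ) : ℤ) = x - M * ((x / M : ℕ) : ℤ) := by
    have := Nat.mod_add_div x M
    have h3 : ((x % M : ℕ) : ℤ) + M * ((x / M : ℕ) : ℤ) = x := by exact_mod_cast this
    linarith
  unfold sg cls
  split_ifs with h
  · rw [min_eq_left h, h2]
    exact ⟨((x / M : ℕ) : ℤ), by ring⟩
  · push Not at h
    rw [min_eq_right h.le, Nat.cast_sub h1.le, h2]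
    exact ⟨-(((x / M : ℕ) : ℤ)) - 1, by ring⟩

lemma sg_abs (M x : ℕ) : sg M x = 1 ∨ sg M x = -1 := by
  unfold sg; split_ifs <;> simp

lemma sg_natAbs (M x : ℕ) : (sg M x * (x : ℤ)).natAbs = x := by
  rcases sg_abs M x with h | h <;> rw [h] <;> simp

/-- the odd level -/
lemma odd_level {μ t : ℕ} (Q : Finset ℕ) (hodd : ∀ x ∈ Q, Odd x)
    (hc : 2 ^ (t + μ) < 2 * #Q) (ht : t + 1 < 2 ^ (μ + 2)) :
    ∃ B ⊆ Q, #B = t + 1 ∧ RFn B := by
  classical
  set M := 2 ^ (μ + 2) with hM
  have hMpos : 0 < M := by positivity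
  have hM4 : M = 4 * 2 ^ μ := by rw [hM, pow_add]; ring
  have hpμ : 0 < 2 ^ μ := by positivity
  -- pigeonhole
  have hcodd : ∀ x ∈ Q, Odd (cls M x) := by
    intro x hx
    have h1 := hodd x hx
    have h2 : Odd (x % M) := by
      rw [Nat.odd_iff] at h1 ⊢
      have : x % M % 2 = x % 2 := Nat.mod_mod_of_dvd _ ⟨2 * 2 ^ μ, by rw [hM4]; ring⟩
      omega
    unfold cls
    have h3 : x % M < M := Nat.mod_lt _ hMpos
    rcases le_total (x % M) (M - x % M) with h | h
    · rw [min_eq_left h]; exact h2
    · rw [min_eq_right h]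
      rw [Nat.odd_iff] at h2 ⊢
      omega
  have hclt : ∀ x ∈ Q, cls M x / 2 ∈ range (2 ^ μ) := by
    intro x hx
    rw [mem_range]
    have h3 := hcodd x hx
    have h4 : cls M x ≤ 2 * 2 ^ μ := by
      unfold cls
      have h3 : x % M < M := Nat.mod_lt _ hMpos
      rcases le_total (x % M) (M - x % M) with h | h
      · rw [min_eq_left h]; omega
      · rw [min_eq_right h]; omega
    rw [Nat.odd_iff] at h3
    omega
  obtain ⟨r, hr, hrc⟩ : ∃ r ∈ range (2 ^ μ), 2 ^ t < 2 * #(Q.filter (fun x => cls M x / 2 = r)) := by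
    by_contra hcon
    push Not at hcon
    have h1 : #Q = ∑ r ∈ range (2 ^ μ), #(Q.filter (fun x => cls M x / 2 = r)) :=
      card_eq_sum_card_fiberwise (fun x hx => by exact_mod_cast hclt x hx)
    have h2 : 2 * #Q ≤ ∑ r ∈ range (2 ^ μ), 2 ^ t := by
      rw [h1, mul_sum]
      exact sum_le_sum hcon
    rw [sum_const, card_range, smul_eq_mul, ← pow_add] at h2
    rw [add_comm] at hc
    omega
  set C := Q.filter (fun x => cls M x / 2 = r) with hC
  have hcls : ∀ x ∈ C, cls M x = 2 * r + 1 := by
    intro x hx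
    obtain ⟨hxQ, h1⟩ := mem_filter.1 hx
    have h2 := hcodd x hxQ
    rw [Nat.odd_iff] at h2
    omega
  set f : ℕ → ℤ := fun x => sg M x * (x : ℤ) with hf
  have hfinj : Set.InjOn f (C : Set ℕ) := by
    intro x _ y _ hxy
    have := congrArg Int.natAbs hxy
    simp only [hf, sg_natAbs] at this
    exact this
  obtain ⟨B, hBC, hBc, hBR⟩ := caterpillar t (μ + 2) (C.image f) (by
      intro z hz
      obtain ⟨x, hx, rfl⟩ := mem_image.1 hz
      have h1 := hodd x (mem_filter.1 hx).1
      have h2 : Odd (x : ℤ) := by exact_mod_cast h1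
      simp only [hf]
      rcases sg_abs M x with h | h
      · rw [h, one_mul]; exact h2
      · rw [h, neg_one_mul]; exact h2.neg) (by
      intro z hz w hw
      obtain ⟨x, hx, rfl⟩ := mem_image.1 hz
      obtain ⟨y, hy, rfl⟩ := mem_image.1 hw
      have h1 := sg_spec (x := x) hMpos
      have h2 := sg_spec (x := y) hMpos
      rw [hcls x hx] at h1
      rw [hcls y hy] at h2
      have h3 := dvd_sub h1 h2
      have h4 : sg M x * (x : ℤ) - sg M y * (y : ℤ)
          = sg M x * x - ((2 * r + 1 : ℕ) : ℤ) - (sg M y * y - ((2 * r + 1 : ℕ) : ℤ)) := by ring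
      simp only [hf]
      rw [h4]
      rw [hM] at h3
      exact_mod_cast h3) (by rw [card_image_of_injOn hfinj]; exact hrc) (by exact_mod_cast ht)
  refine ⟨B.image Int.natAbs, ?_, ?_, ?_⟩
  · intro y hy
    obtain ⟨z, hz, rfl⟩ := mem_image.1 hy
    obtain ⟨x, hx, rfl⟩ := mem_image.1 (hBC hz)
    simp only [hf, sg_natAbs]
    exact (mem_filter.1 hx).1
  · rw [card_image_of_injOn, hBc]
    intro z hz w hw hzw
    obtain ⟨x, hx, rfl⟩ := mem_image.1 (hBC hz)
    obtain ⟨y, hy, rfl⟩ := mem_image.1 (hBC hw)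
    simp only [hf, sg_natAbs] at hzw
    rw [hzw]
  · apply rfn_of_rf hBR
    intro z hz w hw hzw
    obtain ⟨x, hx, rfl⟩ := mem_image.1 (hBC hz)
    obtain ⟨y, hy, rfl⟩ := mem_image.1 (hBC hw)
    simp only [hf, sg_natAbs] at hzw
    rw [hzw]

/-- doubling preserves relation-freeness -/
lemma rfn_double {B : Finset ℕ} (hB : RFn B) : RFn (B.image (fun x => 2 * x)) := by
  intro e he hs
  have hinj : Set.InjOn (fun x : ℕ => 2 * x) (B : Set ℕ) := by
    intro x _ y _ h
    simp only at h
    omega
  rw [sum_image hinj] at hs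
  have hs' : ∑ x ∈ B, e (2 * x) * (x : ℤ) = 0 := by
    have : ∑ x ∈ B, e (2 * x) * ((2 * x : ℕ) : ℤ) = 2 * ∑ x ∈ B, e (2 * x) * (x : ℤ) := by
      rw [mul_sum]
      apply sum_congr rfl
      intro x _
      push_cast; ring
    rw [this] at hs
    linarith
  have key := hB (fun x => e (2 * x)) (fun x hx => he _ (mem_image_of_mem _ hx)) hs'
  intro y hy
  obtain ⟨x, hx, rfl⟩ := mem_image.1 hy
  exact key x hx

/-- adding an odd element to a set of even numbers -/
lemma rfn_insert_odd {B : Finset ℕ} (hB : RFn B) (heven : ∀ x ∈ B, Even x) {y : ℕ} (hy : Odd y) :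
    RFn (insert y B) := by
  intro e he hs
  have hyB : y ∉ B := fun h => (Nat.not_even_iff_odd.2 hy) (heven y h)
  rw [sum_insert hyB] at hs
  have hey : e y = 0 := by
    by_contra hne
    have h7 : |e y| = 1 := le_antisymm (he y (mem_insert_self _ _)) (Int.one_le_abs hne)
    have h1 : Even (∑ x ∈ B, e x * (x : ℤ)) := by
      rw [even_iff_two_dvd]
      apply dvd_sum
      intro x hx
      have := (heven x hx).two_dvd
      exact (Int.natCast_dvd_natCast.2 this).mul_left _
    have h2 : Odd (e y * (y : ℤ)) := by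
      have h3 : Odd (y : ℤ) := by exact_mod_cast hy
      have h4 : Odd (e y) := by
        rcases (abs_eq (by norm_num : (0 : ℤ) ≤ 1)).1 h7 with h8 | h8 <;> rw [h8]
        · exact odd_one
        · exact ⟨-1, by norm_num⟩
      exact h4.mul h3
    have h5 : Odd (e y * (y : ℤ) + ∑ x ∈ B, e x * (x : ℤ)) := h2.add_even h1
    rw [hs] at h5
    simp at h5
  rw [hey, zero_mul, zero_add] at hs
  have hrest := hB e (fun x hx => he x (mem_insert_of_mem hx)) hs
  intro x hx
  rcases mem_insert.1 hx with h9 | h9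
  · rw [h9]; exact hey
  · exact hrest x h9

/-- the main counting lemma -/
lemma main_nat (μ : ℕ) : ∀ (N t : ℕ) (P : Finset ℕ), (∀ x ∈ P, 0 < x) → (∀ x ∈ P, x < 2 ^ N) →
    2 ^ (t + μ) ≤ #P → t + 1 < 2 ^ (μ + 2) → ∃ B ⊆ P, #B = t + 1 ∧ RFn B := by
  classical
  intro N
  induction N with
  | zero =>
    intro t P hpos hlt hc _
    exfalso
    have h1 : 0 < 2 ^ (t + μ) := by positivity
    have hne : P.Nonempty := by rw [← card_pos]; omega
    obtain ⟨x, hx⟩ := hne
    have := hpos x hx
    have := hlt x hx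
    simp at this
    omega
  | succ N ih =>
    intro t P hpos hlt hc ht
    set O := P.filter (fun x => Odd x) with hO
    set E := P.filter (fun x => ¬ Odd x) with hE
    have hsplit : #O + #E = #P := card_filter_add_card_filter_not _
    set H := E.image (fun x => x / 2) with hH
    have hEeven : ∀ x ∈ E, Even x := fun x hx => Nat.not_odd_iff_even.1 (mem_filter.1 hx).2
    have hHinj : Set.InjOn (fun x : ℕ => x / 2) (E : Set ℕ) := by
      intro x hx y hy h
      obtain ⟨a, ha⟩ := hEeven x hx
      obtain ⟨b, hb⟩ := hEeven y hy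
      simp only at h
      omega
    have hHc : #H = #E := card_image_of_injOn hHinj
    have hHpos : ∀ x ∈ H, 0 < x := by
      intro x hx
      obtain ⟨y, hy, rfl⟩ := mem_image.1 hx
      obtain ⟨a, ha⟩ := hEeven y hy
      have := hpos y (mem_filter.1 hy).1
      omega
    have hHlt : ∀ x ∈ H, x < 2 ^ N := by
      intro x hx
      obtain ⟨y, hy, rfl⟩ := mem_image.1 hx
      have := hlt y (mem_filter.1 hy).1
      rw [pow_succ] at this
      omega
    have hback : ∀ x ∈ H, 2 * x ∈ P := by
      intro x hx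
      obtain ⟨y, hy, rfl⟩ := mem_image.1 hx
      obtain ⟨a, ha⟩ := hEeven y hy
      have : 2 * (y / 2) = y := by omega
      rw [this]
      exact (mem_filter.1 hy).1
    have hdinj : ∀ B : Finset ℕ, #(B.image (fun x => 2 * x)) = #B := by
      intro B
      apply card_image_of_injOn
      intro x _ y _ h
      simp only at h
      omega
    rcases O.eq_empty_or_nonempty with hO0 | hOne
    · -- no odd elements
      rw [hO0, card_empty, zero_add] at hsplit
      obtain ⟨B, hBH, hBc, hBR⟩ := ih t H hHpos hHlt (by rw [hHc, hsplit]; exact hc) ht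
      refine ⟨B.image (fun x => 2 * x), ?_, ?_, rfn_double hBR⟩
      · intro y hy
        obtain ⟨x, hx, rfl⟩ := mem_image.1 hy
        exact hback x (hBH hx)
      · rw [hdinj, hBc]
    · obtain ⟨y, hy⟩ := hOne
      by_cases hbig : 2 ^ (t + μ) < 2 * #O
      · obtain ⟨B, hBO, hBc, hBR⟩ := odd_level O (fun x hx => (mem_filter.1 hx).2) hbig ht
        exact ⟨B, hBO.trans (filter_subset _ _), hBc, hBR⟩
      · push Not at hbig
        rcases t with _ | t
        · -- one element suffices
          refine ⟨{y}, singleton_subset_iff.2 (mem_filter.1 hy).1, by simp, ?_⟩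
          intro e _ hs x hx
          rw [mem_singleton] at hx
          rw [sum_singleton] at hs
          subst hx
          have h1 := hpos x (mem_filter.1 hy).1
          rcases mul_eq_zero.1 hs with h2 | h2
          · exact h2
          · exfalso
            have : x = 0 := by exact_mod_cast h2
            omega
        · have hEc : 2 ^ (t + μ) ≤ #H := by
            rw [hHc]
            have : 2 ^ (t + 1 + μ) = 2 * 2 ^ (t + μ) := by
              rw [show t + 1 + μ = (t + μ) + 1 by ring, pow_succ]; ring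
            omega
          obtain ⟨B, hBH, hBc, hBR⟩ := ih t H hHpos hHlt hEc (by omega)
          have hev : ∀ x ∈ B.image (fun x => 2 * x), Even x := by
            intro x hx
            obtain ⟨z, _, rfl⟩ := mem_image.1 hx
            exact even_two_mul z
          have hynot : y ∉ B.image (fun x => 2 * x) :=
            fun h => (Nat.not_even_iff_odd.2 (mem_filter.1 hy).2) (hev y h)
          refine ⟨insert y (B.image (fun x => 2 * x)), ?_, ?_,
            rfn_insert_odd (rfn_double hBR) hev (mem_filter.1 hy).2⟩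
          · intro x hx
            rcases mem_insert.1 hx with h | h
            · rw [h]; exact (mem_filter.1 hy).1
            · obtain ⟨z, hz, rfl⟩ := mem_image.1 h
              exact hback z (hBH hz)
          · rw [card_insert_of_notMem hynot, hdinj, hBc]

end H25.E963
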