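import Mathlib
import Pool.Agent.Helper25.E963Lvl

set_option autoImplicit false

namespace H25.E963

open Finset

/-- integers carrying the additive structure of a finite set of reals (lemma by helper636) -/
lemma exists_int_model (A : Finset ℝ) :
    ∃ (n : ℝ → ℤ), (∀ a ∈ A, ∀ b ∈ A, n a = n b → a = b) ∧
      (∀ T ⊆ A, ∀ U ⊆ A, ∑ a ∈ T, a = ∑ a ∈ U, a → ∑ a ∈ T, n a = ∑ a ∈ U, n a) := by
  classical
  let ι := {x : A × A // (x.1 : ℝ) ≠ (x.2 : ℝ)}
  obtain ⟨f, hf⟩ := Module.exists_dual_forall_apply_ne_zero (K := ℚ) (M := ℝ) (ι := ι)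
    (fun x => (x.1.1 : ℝ) - (x.1.2 : ℝ)) (fun x => sub_ne_zero.2 x.2)
  set D : ℕ := ∏ a ∈ A, (f a).den with hD
  have hDpos : 0 < D := prod_pos (fun a _ => (f a).den_pos)
  have hint : ∀ a ∈ A, ((⌊(D : ℚ) * f a⌋ : ℤ) : ℚ) = (D : ℚ) * f a := by
    intro a ha
    obtain ⟨c, hc⟩ : (f a).den ∣ D := dvd_prod_of_mem (fun a => (f a).den) ha
    have : (D : ℚ) * f a = ((c * (f a).num : ℤ) : ℚ) := by
      rw [hc]
      push_cast
      have h1 : ((f a).den : ℚ) * f a = (f a).num := by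
        exact_mod_cast Rat.den_mul_eq_num (f a)
      calc ((f a).den : ℚ) * c * f a = c * (((f a).den : ℚ) * f a) := by ring
        _ = _ := by rw [h1]
    rw [this, Int.floor_intCast]
  have hDq : (D : ℚ) ≠ 0 := by exact_mod_cast hDpos.ne'
  refine ⟨fun a => ⌊(D : ℚ) * f a⌋, ?_, ?_⟩
  · intro a ha b hb hab
    by_contra hne
    have h1 : (D : ℚ) * f a = (D : ℚ) * f b := by
      rw [← hint a ha, ← hint b hb]
      exact_mod_cast hab
    have h2 : f a = f b := mul_left_cancel₀ hDq h1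
    have h3 := hf ⟨(⟨a, ha⟩, ⟨b, hb⟩), hne⟩
    apply h3
    simp only [map_sub]
    rw [h2, sub_self]
  · intro T hT U hU hTU
    have h1 : ∀ W ⊆ A, ((∑ a ∈ W, ⌊(D : ℚ) * f a⌋ : ℤ) : ℚ) = D * f (∑ a ∈ W, a) := by
      intro W hW
      rw [map_sum, mul_sum]
      push_cast
      exact sum_congr rfl (fun a ha => hint a (hW ha))
    have h2 : ((∑ a ∈ T, ⌊(D : ℚ) * f a⌋ : ℤ) : ℚ) = ((∑ a ∈ U, ⌊(D : ℚ) * f a⌋ : ℤ) : ℚ) := by
      rw [h1 T hT, h1 U hU, hTU]
    exact_mod_cast h2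

lemma card_natAbs (A : Finset ℝ) (n : ℝ → ℤ) (hinj : ∀ a ∈ A, ∀ b ∈ A, n a = n b → a = b) :
    #A ≤ 2 * #((A.image (fun a => (n a).natAbs)).erase 0) + 1 := by
  classical
  set P := (A.image (fun a => (n a).natAbs)).erase 0 with hP
  have h1 : A.image n ⊆ {0} ∪ (P.image (fun m : ℕ => (m : ℤ)) ∪ P.image (fun m : ℕ => -(m : ℤ))) := by
    intro z hz
    obtain ⟨x, hx, rfl⟩ := mem_image.1 hz
    rw [mem_union, mem_union, mem_singleton]
    by_cases h0 : n x = 0
    · left; exact h0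
    · right
      have hmem : (n x).natAbs ∈ P := by
        rw [hP, mem_erase]
        exact ⟨by simpa using h0, mem_image.2 ⟨x, hx, rfl⟩⟩
      rcases Int.natAbs_eq (n x) with h2 | h2
      · left; rw [mem_image]; exact ⟨_, hmem, h2.symm⟩
      · right; rw [mem_image]; exact ⟨_, hmem, h2.symm⟩
  have h2 : #(A.image n) = #A := card_image_of_injOn (fun a ha b hb h => hinj a ha b hb h)
  have h3 := card_le_card h1
  rw [h2] at h3
  have h4 := (h3.trans (card_union_le _ _)).trans (Nat.add_le_add_left (card_union_le _ _) _)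
  have h5 : #(P.image (fun m : ℕ => (m : ℤ))) ≤ #P := card_image_le
  have h6 : #(P.image (fun m : ℕ => -(m : ℤ))) ≤ #P := card_image_le
  rw [card_singleton] at h4
  omega

/-- pulling a relation-free set of absolute values back to the reals -/
lemma pull_back (A : Finset ℝ) (n : ℝ → ℤ)
    (hn : ∀ T ⊆ A, ∀ U ⊆ A, ∑ a ∈ T, a = ∑ a ∈ U, a → ∑ a ∈ T, n a = ∑ a ∈ U, n a)
    (P : Finset ℕ) (hP : P ⊆ A.image (fun a => (n a).natAbs)) (hR : RFn P) :
    ∃ B ⊆ A, #B = #P ∧ AddDissociated (B : Set ℝ) := by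
  classical
  have hch : ∀ p, ∃ a, p ∈ P → (a ∈ A ∧ (n a).natAbs = p) := by
    intro p
    by_cases hp : p ∈ P
    · obtain ⟨a, ha, h⟩ := mem_image.1 (hP hp)
      exact ⟨a, fun _ => ⟨ha, h⟩⟩
    · exact ⟨0, fun h => absurd h hp⟩
  choose a ha using hch
  have hinj : Set.InjOn a (P : Set ℕ) := by
    intro p hp q hq h
    rw [← (ha p hp).2, ← (ha q hq).2, h]
  have hBA : P.image a ⊆ A := by
    intro x hx
    obtain ⟨p, hp, rfl⟩ := mem_image.1 hx
    exact (ha p hp).1
  refine ⟨P.image a, hBA, card_image_of_injOn hinj, ?_⟩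
  intro T hT U hU hTU
  simp only [Set.mem_ofPred_eq, coe_subset] at hT hU
  have hTU' := hn T (hT.trans hBA) U (hU.trans hBA) hTU
  have hsumW : ∀ W ⊆ P.image a, ∑ p ∈ P, (if a p ∈ W then (1 : ℤ) else 0) * n (a p)
      = ∑ x ∈ W, n x := by
    intro W hW
    rw [← sum_image (f := fun x => (if x ∈ W then (1 : ℤ) else 0) * n x) hinj]
    simp only [ite_mul, one_mul, zero_mul]
    rw [← sum_filter]
    apply sum_congr _ (fun _ _ => rfl)
    ext x
    simp only [mem_filter]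
    exact ⟨fun h => h.2, fun h => ⟨hW h, h⟩⟩
  set c : ℕ → ℤ := fun p => (if a p ∈ T then (1 : ℤ) else 0) - (if a p ∈ U then 1 else 0) with hc
  have hc1 : ∀ p, |c p| ≤ 1 := by
    intro p; rw [hc]; simp only; split_ifs <;> simp
  have hs1 : ∀ p, |(n (a p)).sign| ≤ 1 := by
    intro p
    rcases lt_trichotomy (n (a p)) 0 with h | h | h
    · rw [Int.sign_eq_neg_one_of_neg h]; simp
    · rw [h]; simp
    · rw [Int.sign_eq_one_of_pos h]; simp
  have key := hR (fun p => c p * (n (a p)).sign) (by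
    intro p _
    rw [abs_mul]
    have h1 := hc1 p
    have h2 := hs1 p
    have h3 := abs_nonneg (c p)
    have h4 := abs_nonneg ((n (a p)).sign)
    nlinarith) (by
    have h1 : ∑ p ∈ P, c p * (n (a p)).sign * (p : ℤ) = ∑ p ∈ P, c p * n (a p) := by
      apply sum_congr rfl
      intro p hp
      have h2 : (p : ℤ) = |n (a p)| := by
        rw [← Int.natCast_natAbs, (ha p hp).2]
      rw [mul_assoc, h2, Int.sign_mul_abs]
    rw [h1, hc]
    simp only [sub_mul, sum_sub_distrib]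
    rw [hsumW T hT, hsumW U hU, hTU', sub_self])
  have hcz : ∀ p ∈ P, c p = 0 := by
    intro p hp
    rcases mul_eq_zero.1 (key p hp) with h | h
    · exact h
    · exfalso
      have h0 : n (a p) = 0 := Int.sign_eq_zero_iff_zero.1 h
      have hp0 : p = 0 := by rw [← (ha p hp).2, h0]; rfl
      have h2 := hR (fun q => if q = 0 then 1 else 0) (by
        intro w _; split_ifs <;> simp) (by
        apply sum_eq_zero
        intro w _
        split_ifs with hw
        · rw [hw]; simp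
        · simp) p hp
      simp [hp0] at h2
  ext x
  constructor
  · intro hx
    obtain ⟨p, hp, rfl⟩ := mem_image.1 (hT hx)
    have h2 := hcz p hp
    by_contra hxU
    simp [hc, hx, hxU] at h2
  · intro hx
    obtain ⟨p, hp, rfl⟩ := mem_image.1 (hU hx)
    have h2 := hcz p hp
    by_contra hxT
    simp [hc, hx, hxT] at h2

/-- the general bound with parameter `μ` -/
theorem lower_param (μ : ℕ) (A : Finset ℝ) (hA : Nat.log 2 #A + 1 ≤ 2 ^ (μ + 2) + μ) :
    ∃ B ⊆ A, Nat.log 2 #A ≤ #B + μ ∧ AddDissociated (B : Set ℝ) := by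
  classical
  set K := Nat.log 2 #A with hK
  rcases Nat.lt_or_ge μ K with hμ | hμ
  · obtain ⟨t, ht⟩ : ∃ t, K = t + μ + 1 := ⟨K - μ - 1, by omega⟩
    have hAne : #A ≠ 0 := by
      intro h0
      rw [h0] at hK
      simp at hK
      omega
    have h2K : 2 ^ K ≤ #A := Nat.pow_log_le_self 2 hAne
    obtain ⟨n, hninj, hn⟩ := exists_int_model A
    set P := (A.image (fun a => (n a).natAbs)).erase 0 with hP
    have hcard := card_natAbs A n hninj
    rw [← hP] at hcard
    have hPc : 2 ^ (t + μ) ≤ #P := by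
      rw [ht, show t + μ + 1 = (t + μ) + 1 by ring, pow_succ] at h2K
      omega
    obtain ⟨N, hN⟩ : ∃ N, ∀ x ∈ P, x < 2 ^ N := by
      refine ⟨P.sup id + 1, fun x hx => ?_⟩
      have h1 : x ≤ P.sup id := le_sup (f := id) hx
      calc x < 2 ^ x := Nat.lt_two_pow_self
        _ ≤ _ := Nat.pow_le_pow_right (by norm_num) (by omega)
    obtain ⟨B, hBP, hBc, hBR⟩ := main_nat μ N t P
      (fun x hx => Nat.pos_of_ne_zero (mem_erase.1 hx).1) hN hPc (by
        rw [ht] at hA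
        have : t + 2 ≤ 2 ^ (μ + 2) := by omega
        omega)
    obtain ⟨B', hB'A, hB'c, hB'd⟩ := pull_back A n hn B (hBP.trans (erase_subset _ _)) hBR
    exact ⟨B', hB'A, by rw [hB'c, hBc]; omega, hB'd⟩
  · exact ⟨∅, empty_subset _, by simpa using hμ, by simp⟩

/-- loss at most `log log` -/
theorem lower_loglog (A : Finset ℝ) :
    ∃ B ⊆ A, Nat.log 2 #A ≤ #B + (Nat.log 2 (Nat.log 2 #A) - 1) ∧ AddDissociated (B : Set ℝ) := by
  apply lower_param
  set K := Nat.log 2 #A with hK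
  rcases Nat.lt_or_ge K 2 with h | h
  · have h4 : (4 : ℕ) ≤ 2 ^ (Nat.log 2 K - 1 + 2) := by
      calc (4 : ℕ) = 2 ^ 2 := by norm_num
        _ ≤ _ := Nat.pow_le_pow_right (by norm_num) (by omega)
    omega
  · have h1 : 1 ≤ Nat.log 2 K := Nat.log_pos (by norm_num) h
    have h2 : K < 2 ^ (Nat.log 2 K).succ := Nat.lt_pow_succ_log_self (by norm_num) K
    have h3 : 2 ^ (Nat.log 2 K).succ ≤ 2 ^ (Nat.log 2 K - 1 + 2) :=
      Nat.pow_le_pow_right (by norm_num) (by omega)
    omega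

end H25.E963
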